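import Pool.Agent.Helper23.MV.StH

/-!
# Project MV: module SM2 (sum over the zeros of `ζ`)
-/

set_option autoImplicit false

namespace Pool.Agent.Helper36.MV

open Finset ArithmeticFunction
open Pool.Agent.Helper23.MV

/-- counting in boxes: if every `1`-separated subset has at most `N` elements and every window of
half width `w` has weight at most `B`, the total weight is at most `m N B` (`(m - 1) w ≥ 1`). -/
theorem boxCount (S : Finset ℂ) (f : ℂ → ℝ) (w N B : ℝ) (m : ℕ) (hw : 0 < w) (hm : 1 ≤ m)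
    (hmw : 1 ≤ ((m : ℝ) - 1) * w) (hf : ∀ ρ ∈ S, 0 ≤ f ρ) (hB0 : 0 ≤ B)
    (hN : ∀ F ⊆ S, (∀ ρ ∈ F, ∀ ρ' ∈ F, ρ ≠ ρ' → 1 ≤ |ρ.im - ρ'.im|) → (F.card : ℝ) ≤ N)
    (hB : ∀ ρ₀ ∈ S, ∑ ρ ∈ S.filter (fun ρ => |ρ.im - ρ₀.im| ≤ w), f ρ ≤ B) :
    ∑ ρ ∈ S, f ρ ≤ m * N * B := by
  classical
  set k : ℂ → ℤ := fun ρ => ⌊ρ.im / w⌋ with hk
  have h1 : ∑ ρ ∈ S, f ρ = ∑ z ∈ S.image k, ∑ ρ ∈ S.filter (fun ρ => k ρ = z), f ρ :=
    (Finset.sum_fiberwise_of_maps_to (fun ρ hρ => Finset.mem_image_of_mem k hρ) f).symm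
  have h2 : ∀ z ∈ S.image k, ∑ ρ ∈ S.filter (fun ρ => k ρ = z), f ρ ≤ B := by
    intro z hz
    obtain ⟨ρ₀, h0, rfl⟩ := Finset.mem_image.mp hz
    refine le_trans (Finset.sum_le_sum_of_subset_of_nonneg ?_ ?_) (hB ρ₀ h0)
    · intro ρ hρ
      rw [Finset.mem_filter] at hρ ⊢
      refine ⟨hρ.1, ?_⟩
      have h := Int.abs_sub_lt_one_of_floor_eq_floor hρ.2
      rw [← sub_div, abs_div, abs_of_pos hw, div_lt_one hw] at h
      exact h.le
    · intro ρ hρ _
      exact hf ρ (Finset.mem_filter.mp hρ).1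
  have hmpos : (0 : ℤ) < m := by exact_mod_cast hm
  have h3 : ((S.image k).card : ℝ) ≤ m * N := by
    have hex : ∀ z : ℤ, z ∈ S.image k → ∃ ρ, ρ ∈ S ∧ k ρ = z := fun z hz => Finset.mem_image.mp hz
    choose! g hg using hex
    have h4 : (S.image k).card = ∑ r ∈ Finset.range m,
        ((S.image k).filter (fun z => (z % (m : ℤ)).toNat = r)).card := by
      apply Finset.card_eq_sum_card_fiberwise
      intro z _
      have a1 := Int.emod_nonneg z hmpos.ne'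
      have a2 := Int.emod_lt_of_pos z hmpos
      simp only [Finset.coe_range, Set.mem_Iio]
      omega
    have h5 : ∀ r ∈ Finset.range m,
        (((S.image k).filter (fun z => (z % (m : ℤ)).toNat = r)).card : ℝ) ≤ N := by
      intro r _
      set T := (S.image k).filter (fun z => (z % (m : ℤ)).toNat = r) with hT
      have hTk : ∀ z ∈ T, z ∈ S.image k ∧ (z % (m : ℤ)).toNat = r := fun z hz =>
        Finset.mem_filter.mp hz
      have hinj : Set.InjOn g T := by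
        intro z hz z' hz' he
        rw [← (hg z (hTk z hz).1).2, ← (hg z' (hTk z' hz').1).2, he]
      rw [← Finset.card_image_of_injOn hinj]
      apply hN
      · intro ρ hρ
        obtain ⟨z, hz, rfl⟩ := Finset.mem_image.mp hρ
        exact (hg z (hTk z hz).1).1
      · intro ρ hρ ρ' hρ' hne
        obtain ⟨z, hz, rfl⟩ := Finset.mem_image.mp hρ
        obtain ⟨z', hz', rfl⟩ := Finset.mem_image.mp hρ'
        have hzz : z ≠ z' := fun h => hne (by rw [h])
        have b1 := (hTk z hz).2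
        have b2 := (hTk z' hz').2
        have a1 := Int.emod_nonneg z hmpos.ne'
        have a2 := Int.emod_nonneg z' hmpos.ne'
        have hmod : z % (m : ℤ) = z' % (m : ℤ) := by omega
        have hdvd : (m : ℤ) ∣ z - z' := Int.ModEq.dvd (show z' ≡ z [ZMOD m] from hmod.symm)
        have habs : (m : ℤ) ≤ |z - z'| := by
          have := Int.le_of_dvd (abs_pos.mpr (sub_ne_zero.mpr hzz)) ((dvd_abs _ _).mpr hdvd)
          exact this
        have habsR : (m : ℝ) ≤ |(z : ℝ) - z'| := by exact_mod_cast habs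
        have e1 := (hg z (hTk z hz).1).2
        have e2 := (hg z' (hTk z' hz').1).2
        set x := (g z).im with hx
        set x' := (g z').im with hx'
        have f1 : (z : ℝ) ≤ x / w ∧ x / w < z + 1 := by
          have := Int.floor_eq_iff.mp e1
          exact this
        have f2 : (z' : ℝ) ≤ x' / w ∧ x' / w < z' + 1 := by
          have := Int.floor_eq_iff.mp e2
          exact this
        have h6 : (m : ℝ) - 1 ≤ |x / w - x' / w| := by
          rcases le_total (z : ℝ) z' with hle | hle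
          · rw [abs_of_nonpos (by linarith)] at habsR
            rw [abs_sub_comm]
            refine le_trans ?_ (le_abs_self _)
            linarith [f1.2, f2.1]
          · rw [abs_of_nonneg (by linarith)] at habsR
            refine le_trans ?_ (le_abs_self _)
            linarith [f1.1, f2.2]
        rw [← sub_div, abs_div, abs_of_pos hw, le_div_iff₀ hw] at h6
        linarith
    rw [h4]
    push_cast
    calc ∑ r ∈ Finset.range m,
          (((S.image k).filter (fun z => (z % (m : ℤ)).toNat = r)).card : ℝ)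
        ≤ ∑ r ∈ Finset.range m, N := Finset.sum_le_sum h5
      _ = m * N := by simp
  rw [h1]
  calc ∑ z ∈ S.image k, ∑ ρ ∈ S.filter (fun ρ => k ρ = z), f ρ
      ≤ ∑ z ∈ S.image k, B := Finset.sum_le_sum h2
    _ = (S.image k).card * B := by simp
    _ ≤ m * N * B := mul_le_mul_of_nonneg_right h3 hB0

/-- a primitive principal character has modulus one, its L-function is `ζ` -/
theorem triv_L (c : PCh) (h : c.χ = 1) : c.r = 1 ∧ c.L = riemannZeta := by
  obtain ⟨r, hr, χ, prim⟩ := c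
  simp only at h
  have h1 : r = 1 := by
    haveI : NeZero r := ⟨hr⟩
    have := prim
    rw [DirichletCharacter.isPrimitive_def, h, DirichletCharacter.conductor_one] at this
    exact this.symm
  subst h1
  refine ⟨rfl, ?_⟩
  funext s
  show DirichletCharacter.LFunction χ s = riemannZeta s
  rw [DirichletCharacter.LFunction_modOne_eq]

/-- growth conditions in `L` -/
private theorem evL (K c : ℝ) (hK : 0 < K) (hc : 0 < c) : ∃ L₀ : ℝ, 2 ≤ L₀ ∧ ∀ L : ℝ, L₀ ≤ L →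
    2 * Real.log (6 * L) ≤ L ^ (3 / 100 : ℝ) ∧
    K * L ^ 8 * Real.exp (-(c / 8 * L ^ (7 / 100 : ℝ))) ≤ Real.exp (-L ^ (1 / 20 : ℝ)) := by
  have t1 : ∀ᶠ L : ℝ in Filter.atTop, ‖Real.log L‖ ≤ (1 / 8) * ‖L ^ (3 / 100 : ℝ)‖ :=
    (isLittleO_log_rpow_atTop (by norm_num : (0 : ℝ) < 3 / 100)).def (by norm_num)
  have t2 : ∀ᶠ L : ℝ in Filter.atTop, 8 * Real.log 6 ≤ L ^ (3 / 100 : ℝ) :=
    (tendsto_rpow_atTop (by norm_num : (0 : ℝ) < 3 / 100)).eventually_ge_atTop _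
  have t3 : ∀ᶠ L : ℝ in Filter.atTop, ‖Real.log L‖ ≤ (c / 256) * ‖L ^ (7 / 100 : ℝ)‖ :=
    (isLittleO_log_rpow_atTop (by norm_num : (0 : ℝ) < 7 / 100)).def (by positivity)
  have t4 : ∀ᶠ L : ℝ in Filter.atTop, 32 * |Real.log K| / c ≤ L ^ (7 / 100 : ℝ) :=
    (tendsto_rpow_atTop (by norm_num : (0 : ℝ) < 7 / 100)).eventually_ge_atTop _
  have t5 : ∀ᶠ L : ℝ in Filter.atTop, 32 / c ≤ L ^ (1 / 50 : ℝ) :=
    (tendsto_rpow_atTop (by norm_num : (0 : ℝ) < 1 / 50)).eventually_ge_atTop _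
  obtain ⟨L₁, h1⟩ := Filter.eventually_atTop.mp
    (t1.and (t2.and (t3.and (t4.and (t5.and (Filter.eventually_ge_atTop (2 : ℝ)))))))
  refine ⟨max 2 L₁, le_max_left _ _, fun L hL => ?_⟩
  obtain ⟨u1, u2, u3, u4, u5, u6⟩ := h1 L (le_trans (le_max_right _ _) hL)
  have hL0 : (0 : ℝ) < L := by linarith
  rw [Real.norm_of_nonneg (Real.rpow_nonneg hL0.le _)] at u1 u3
  have u1' := le_trans (Real.le_norm_self _) u1
  have u3' := le_trans (Real.le_norm_self _) u3
  constructor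
  · rw [Real.log_mul (by norm_num) hL0.ne']
    linarith [Real.rpow_nonneg hL0.le (3 / 100 : ℝ)]
  · have e1 : K * L ^ 8 = Real.exp (Real.log K + 8 * Real.log L) := by
      rw [Real.exp_add, Real.exp_log hK]
      congr 1
      rw [show (8 : ℝ) * Real.log L = Real.log (L ^ 8) by rw [Real.log_pow]; norm_num,
        Real.exp_log (by positivity)]
    rw [e1, ← Real.exp_add]
    apply Real.exp_le_exp.mpr
    set M := L ^ (7 / 100 : ℝ) with hM
    have hM0 : 0 < M := Real.rpow_pos_of_pos hL0 _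
    have e2 : L ^ (1 / 20 : ℝ) ≤ c / 32 * M := by
      have : M = L ^ (1 / 20 : ℝ) * L ^ (1 / 50 : ℝ) := by
        rw [hM, ← Real.rpow_add hL0]; norm_num
      rw [this]
      have h0 : 0 ≤ L ^ (1 / 20 : ℝ) := Real.rpow_nonneg hL0.le _
      have h2 : 1 ≤ c / 32 * L ^ (1 / 50 : ℝ) := by
        calc (1 : ℝ) = c / 32 * (32 / c) := by field_simp
          _ ≤ _ := mul_le_mul_of_nonneg_left u5 (by positivity)
      calc L ^ (1 / 20 : ℝ) = L ^ (1 / 20 : ℝ) * 1 := by ring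
        _ ≤ L ^ (1 / 20 : ℝ) * (c / 32 * L ^ (1 / 50 : ℝ)) := mul_le_mul_of_nonneg_left h2 h0
        _ = _ := by ring
    have e3 : Real.log K ≤ c / 32 * M := by
      have h2 : |Real.log K| = c / 32 * (32 * |Real.log K| / c) := by field_simp
      calc Real.log K ≤ |Real.log K| := le_abs_self _
        _ = c / 32 * (32 * |Real.log K| / c) := h2
        _ ≤ _ := mul_le_mul_of_nonneg_left u4 (by positivity)
    nlinarith

/-- the zero-free region in terms of `log X` -/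
private theorem wqb (X g L : ℝ) (hL : L = Real.log X) (hL2 : 2 ≤ L) (_hX : 2 ≤ X) (hg : |g| ≤ X)
    (h6 : 2 * Real.log (6 * L) ≤ L ^ (3 / 100 : ℝ)) (hg10 : 10 ≤ |g|) :
    0 < Pool.Agent.Helper23.GK.wq 1 g ∧ Pool.Agent.Helper23.GK.wq 1 g ≤ L ^ (93 / 100 : ℝ) ∧
      1 ≤ Pool.Agent.Helper23.GK.el g := by
  have hL0 : 0 < L := by linarith
  have h4 : Real.log 4 ≤ 2 := by
    have : Real.log 4 = 2 * Real.log 2 := by
      rw [show (4 : ℝ) = 2 ^ 2 by norm_num, Real.log_pow]; norm_num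
    rw [this]
    have := Real.log_two_lt_d9
    linarith
  have hel1 : 1 ≤ Pool.Agent.Helper23.GK.el g := by
    unfold Pool.Agent.Helper23.GK.el
    rw [Real.le_log_iff_exp_le (by linarith [abs_nonneg g])]
    have := Real.exp_one_lt_d9
    linarith
  have hel2 : Pool.Agent.Helper23.GK.el g ≤ 2 * L := by
    unfold Pool.Agent.Helper23.GK.el
    calc Real.log (|g| + 3) ≤ Real.log (4 * X) :=
          Real.log_le_log (by linarith [abs_nonneg g]) (by linarith)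
      _ = Real.log 4 + L := by rw [Real.log_mul (by norm_num) (by linarith), hL]
      _ ≤ 2 * L := by linarith
  have hvv : Pool.Agent.Helper23.GK.vv g ≤ 2 * L ^ (9 / 10 : ℝ) := by
    unfold Pool.Agent.Helper23.GK.vv
    calc Pool.Agent.Helper23.GK.el g ^ (9 / 10 : ℝ) ≤ (2 * L) ^ (9 / 10 : ℝ) :=
          Real.rpow_le_rpow (by linarith) hel2 (by norm_num)
      _ = 2 ^ (9 / 10 : ℝ) * L ^ (9 / 10 : ℝ) := Real.mul_rpow (by norm_num) hL0.le
      _ ≤ 2 * L ^ (9 / 10 : ℝ) := by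
          apply mul_le_mul_of_nonneg_right _ (Real.rpow_nonneg hL0.le _)
          calc (2 : ℝ) ^ (9 / 10 : ℝ) ≤ 2 ^ (1 : ℝ) :=
                Real.rpow_le_rpow_of_exponent_le (by norm_num) (by norm_num)
            _ = 2 := Real.rpow_one 2
  have hvv0 : 0 < Pool.Agent.Helper23.GK.vv g := by
    unfold Pool.Agent.Helper23.GK.vv
    exact Real.rpow_pos_of_pos (by linarith) _
  have hlog : Real.log (3 * ((1 : ℕ) : ℝ) * Pool.Agent.Helper23.GK.el g) ≤ Real.log (6 * L) := by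
    apply Real.log_le_log
    · push_cast; linarith
    · push_cast; linarith
  have hlog0 : 0 < Real.log (3 * ((1 : ℕ) : ℝ) * Pool.Agent.Helper23.GK.el g) := by
    apply Real.log_pos
    push_cast; linarith
  refine ⟨?_, ?_, hel1⟩
  · unfold Pool.Agent.Helper23.GK.wq
    exact mul_pos hvv0 hlog0
  · unfold Pool.Agent.Helper23.GK.wq
    calc Pool.Agent.Helper23.GK.vv g * Real.log (3 * ((1 : ℕ) : ℝ) * Pool.Agent.Helper23.GK.el g)
        ≤ (2 * L ^ (9 / 10 : ℝ)) * Real.log (6 * L) :=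
          mul_le_mul hvv hlog hlog0.le (by positivity)
      _ = L ^ (9 / 10 : ℝ) * (2 * Real.log (6 * L)) := by ring
      _ ≤ L ^ (9 / 10 : ℝ) * L ^ (3 / 100 : ℝ) :=
          mul_le_mul_of_nonneg_left h6 (Real.rpow_nonneg hL0.le _)
      _ = L ^ (93 / 100 : ℝ) := by rw [← Real.rpow_add hL0]; norm_num

/-- SM2: the sum over the zeros of `ζ` -/
theorem hSm2 (hF : StFin) (hC : StZct) (hD : StZtd) (hL : StZlw)
    (hZ : Pool.Agent.Helper23.GK.StZfr) : StSm2 := by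
  classical
  obtain ⟨hPS, hZF, hmz⟩ := hF
  obtain ⟨c₁, C₁, X₁, hc₁, hc₁', hC₁, hX₁, hztd⟩ := hD (1 / 1000) (by norm_num) (by norm_num)
  obtain ⟨A, c₂, X₂, hA, hc₂, hc₂', hX₂, hzct⟩ := hC
  obtain ⟨c₃, hc₃, hc₃', hzlw⟩ := hL
  obtain ⟨c₄, hc₄, hc₄', hzfr⟩ := hZ
  obtain ⟨a₀, ha₀⟩ : ∃ a₀, a₀ = min c₁ (c₂ / 2) := ⟨_, rfl⟩
  have ha0 : 0 < a₀ := by rw [ha₀]; exact lt_min hc₁ (by linarith)
  have ha1 : a₀ ≤ c₁ := by rw [ha₀]; exact min_le_left _ _
  have ha2 : a₀ ≤ c₂ / 2 := by rw [ha₀]; exact min_le_right _ _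
  obtain ⟨η, hη⟩ : ∃ η, η = min (1 / 100) (min (c₃ / 2) (a₀ / 4)) := ⟨_, rfl⟩
  have hη0 : 0 < η := by
    rw [hη]; exact lt_min (by norm_num) (lt_min (by linarith) (by linarith))
  have hη1 : η ≤ 1 / 100 := by rw [hη]; exact min_le_left _ _
  have hη2 : η ≤ c₃ / 2 := by
    rw [hη]; exact le_trans (min_le_right _ _) (min_le_left _ _)
  have hη3 : η ≤ a₀ / 4 := by
    rw [hη]; exact le_trans (min_le_right _ _) (min_le_right _ _)
  obtain ⟨w, hw⟩ : ∃ w, w = c₂ / 2 := ⟨_, rfl⟩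
  have hw0 : 0 < w := by rw [hw]; linarith
  obtain ⟨m, hm⟩ : ∃ m : ℕ, m = ⌈1 / w⌉₊ + 1 := ⟨_, rfl⟩
  have hm1 : 1 ≤ m := by rw [hm]; omega
  have hmw : 1 ≤ ((m : ℝ) - 1) * w := by
    have h := Nat.le_ceil (1 / w)
    rw [div_le_iff₀ hw0] at h
    rw [hm]; push_cast
    linarith
  obtain ⟨K, hK⟩ : ∃ K : ℝ, K = 8 * m * C₁ * A := ⟨_, rfl⟩
  have hm0 : (0 : ℝ) < m := by exact_mod_cast hm1
  have hK0 : 0 < K := by rw [hK]; positivity
  obtain ⟨L₀, hL₀, hev⟩ := evL K c₄ hK0 hc₄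
  obtain ⟨X0, hX0⟩ : ∃ X0, X0 = max (max X₁ X₂) (max 2 (Real.exp (max L₀ (2 / a₀)))) := ⟨_, rfl⟩
  refine ⟨η, X0, hη0, hη1, ?_, ?_⟩
  · rw [hX0]; exact le_trans (le_max_left _ _) (le_max_right _ _)
  intro X lm c hX hlm hc
  have hXX₁ : X₁ ≤ X := by
    rw [hX0] at hX; exact le_trans (le_trans (le_max_left _ _) (le_max_left _ _)) hX
  have hXX₂ : X₂ ≤ X := by
    rw [hX0] at hX; exact le_trans (le_trans (le_max_right _ _) (le_max_left _ _)) hX
  have hX2 : 2 ≤ X := le_trans hX₁ hXX₁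
  have hXpos : 0 < X := by linarith
  have hlogX : max L₀ (2 / a₀) ≤ Real.log X := by
    rw [Real.le_log_iff_exp_le hXpos]
    rw [hX0] at hX
    exact le_trans (le_trans (le_max_right _ _) (le_max_right _ _)) hX
  obtain ⟨L, hLdef⟩ : ∃ L, L = Real.log X := ⟨_, rfl⟩
  rw [← hLdef] at hlogX ⊢
  have hLL₀ : L₀ ≤ L := le_trans (le_max_left _ _) hlogX
  have hLa : 2 / a₀ ≤ L := le_trans (le_max_right _ _) hlogX
  have hL2 : 2 ≤ L := le_trans hL₀ hLL₀
  have hL0 : 0 < L := by linarith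
  obtain ⟨hP1, hP2⟩ := hev L hLL₀
  have hLinv : 1 / L ≤ a₀ / 2 := by
    rw [div_le_iff₀ ha0] at hLa
    rw [div_le_iff₀ hL0]
    linarith
  obtain ⟨hcr, hcL⟩ := triv_L c hc
  -- properties of the zeros
  have hzero : ∀ ρ ∈ ZF c (2 * η) X, riemannZeta ρ = 0 ∧ 1 - 2 * η ≤ ρ.re ∧ |ρ.im| ≤ X ∧
      ρ.re < 1 ∧ 20 < |ρ.im| ∧ c₄ * L ^ (7 / 100 : ℝ) ≤ (1 - ρ.re) * L := by
    intro ρ hρ
    obtain ⟨h1, h2, h3⟩ := (hZF c (2 * η) X ρ (by linarith)).mp hρ
    have h4 := (hmz c ρ h1 (by linarith)).1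
    rw [hcL] at h1
    have h5 : 20 < |ρ.im| := by
      by_contra hcon
      push Not at hcon
      refine hzlw ρ (by linarith) hcon ?_ h1
      rintro rfl
      exact riemannZeta_one_ne_zero h1
    refine ⟨h1, h2, h3, h4, h5, ?_⟩
    obtain ⟨q1, q2, q3⟩ := wqb X ρ.im L hLdef hL2 hX2 h3 hP1 (by linarith)
    have h6 : ρ.re < 1 - c₄ / Pool.Agent.Helper23.GK.wq 1 ρ.im := by
      by_contra hcon
      push Not at hcon
      have := hzfr 1 1 ρ.re ρ.im (by linarith) (by simp; linarith) hcon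
      rw [Complex.re_add_im, DirichletCharacter.LFunction_modOne_eq] at this
      exact this h1
    have h7 : c₄ / L ^ (93 / 100 : ℝ) ≤ c₄ / Pool.Agent.Helper23.GK.wq 1 ρ.im :=
      div_le_div_of_nonneg_left hc₄.le q1 q2
    have h8 : c₄ * L ^ (7 / 100 : ℝ) = c₄ / L ^ (93 / 100 : ℝ) * L := by
      have : L = L ^ (93 / 100 : ℝ) * L ^ (7 / 100 : ℝ) := by
        rw [← Real.rpow_add hL0]; norm_num
      have h9 : (0 : ℝ) < L ^ (93 / 100 : ℝ) := Real.rpow_pos_of_pos hL0 _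
      rw [div_mul_eq_mul_div, eq_div_iff h9.ne']
      conv_rhs => rw [this]
      ring
    rw [h8]
    exact mul_le_mul_of_nonneg_right (by linarith) hL0.le
  -- number of the zeros
  have hcount : ∀ a : ℝ, 0 ≤ a → a ≤ a₀ →
      ∑ ρ ∈ (ZF c (2 * η) X).filter (fun ρ => 1 - a ≤ ρ.re), (mz c ρ : ℝ) ≤
        m * (C₁ * X ^ (20 * (1 / 1000) * a) * Real.log X ^ 6) * (A * (1 + c₂ * Real.log X)) := by
    intro a ha ha'
    refine boxCount _ (fun ρ => (mz c ρ : ℝ)) w _ _ m hw0 hm1 hmw (fun ρ _ => by positivity) ?_ ?_ ?_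
    · rw [← hLdef]; positivity
    · intro F hFS hsep
      refine hztd X a F hXX₁ ha (by linarith) ?_ hsep
      intro ρ hρ
      obtain ⟨g1, g2⟩ := Finset.mem_filter.mp (hFS hρ)
      obtain ⟨z1, z2, z3, z4, z5, z6⟩ := hzero ρ g1
      exact ⟨z1, g2, z4.le, by linarith, z3⟩
    · intro ρ₀ hρ₀
      obtain ⟨g1, g2⟩ := Finset.mem_filter.mp hρ₀
      obtain ⟨z1, z2, z3, z4, z5, z6⟩ := hzero ρ₀ g1
      refine hzct X c ρ₀.im c₂ _ hXX₂ ?_ z3 (fun _ => by linarith) ?_ le_rfl ?_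
      · rw [hcr]; push_cast
        exact Real.one_le_rpow (by linarith) hc₂.le
      · rw [← hLdef]; linarith
      · intro ρ hρ
        obtain ⟨g3, g4⟩ := Finset.mem_filter.mp hρ
        obtain ⟨g5, g6⟩ := Finset.mem_filter.mp g3
        obtain ⟨y1, y2, y3, y4, y5, y6⟩ := hzero ρ g5
        refine ⟨by rw [hcL]; exact y1, ?_⟩
        refine le_trans (Complex.norm_le_abs_re_add_abs_im _) ?_
        have e1 : (ρ - (1 + (ρ₀.im : ℂ) * Complex.I)).re = ρ.re - 1 := by simp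
        have e2 : (ρ - (1 + (ρ₀.im : ℂ) * Complex.I)).im = ρ.im - ρ₀.im := by simp
        rw [e1, e2, abs_of_nonpos (by linarith)]
        rw [hw] at g4
        linarith
  -- level sets
  set J : ℕ := ⌊2 * η * L⌋₊ + 1 with hJ
  have hXexp : ∀ y : ℝ, X ^ y = Real.exp (y * L) := by
    intro y
    rw [Real.rpow_def_of_pos hXpos, hLdef, mul_comm]
  have hlev : ∀ ρ ∈ ZF c (2 * η) X, ⌊(1 - ρ.re) * L⌋₊ ∈ Finset.range J := by
    intro ρ hρ
    obtain ⟨z1, z2, z3, z4, z5, z6⟩ := hzero ρ hρ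
    rw [Finset.mem_range, hJ]
    apply Nat.lt_succ_of_le
    apply Nat.floor_le_floor
    exact mul_le_mul_of_nonneg_right (by linarith) hL0.le
  have hA0 : 0 < A := by linarith
  have hC0 : 0 < C₁ := by linarith
  have hsum : ∑ ρ ∈ ZF c (2 * η) X, (mz c ρ : ℝ) * Real.exp (-((1 - ρ.re) * L) / 4) ≤ K * L ^ 8 := by
    rw [← Finset.sum_fiberwise_of_maps_to hlev]
    have hterm : ∀ j ∈ Finset.range J,
        ∑ ρ ∈ (ZF c (2 * η) X).filter (fun ρ => ⌊(1 - ρ.re) * L⌋₊ = j),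
          (mz c ρ : ℝ) * Real.exp (-((1 - ρ.re) * L) / 4) ≤ 4 * m * C₁ * A * L ^ 7 := by
      intro j hj
      rw [Finset.mem_range, hJ] at hj
      have hj' : (j : ℝ) ≤ 2 * η * L := by
        have h1 : j ≤ ⌊2 * η * L⌋₊ := by omega
        exact le_trans (by exact_mod_cast h1) (Nat.floor_le (by positivity))
      have s1 : ∑ ρ ∈ (ZF c (2 * η) X).filter (fun ρ => ⌊(1 - ρ.re) * L⌋₊ = j),
          (mz c ρ : ℝ) * Real.exp (-((1 - ρ.re) * L) / 4) ≤
          ∑ ρ ∈ (ZF c (2 * η) X).filter (fun ρ => ⌊(1 - ρ.re) * L⌋₊ = j),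
          (mz c ρ : ℝ) * Real.exp (-(j : ℝ) / 4) := by
        apply Finset.sum_le_sum
        intro ρ hρ
        obtain ⟨g1, g2⟩ := Finset.mem_filter.mp hρ
        obtain ⟨z1, z2, z3, z4, z5, z6⟩ := hzero ρ g1
        apply mul_le_mul_of_nonneg_left _ (by positivity)
        apply Real.exp_le_exp.mpr
        have h1 : (j : ℝ) ≤ (1 - ρ.re) * L := by
          rw [← g2]; exact Nat.floor_le (mul_nonneg (by linarith) hL0.le)
        linarith
      rw [← Finset.sum_mul] at s1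
      have s2 : ∑ ρ ∈ (ZF c (2 * η) X).filter (fun ρ => ⌊(1 - ρ.re) * L⌋₊ = j), (mz c ρ : ℝ) ≤
          ∑ ρ ∈ (ZF c (2 * η) X).filter (fun ρ => 1 - ((j : ℝ) + 1) / L ≤ ρ.re), (mz c ρ : ℝ) := by
        apply Finset.sum_le_sum_of_subset_of_nonneg
        · intro ρ hρ
          obtain ⟨g1, g2⟩ := Finset.mem_filter.mp hρ
          rw [Finset.mem_filter]
          refine ⟨g1, ?_⟩
          have h1 : (1 - ρ.re) * L < (j : ℝ) + 1 := by
            rw [← g2]; exact Nat.lt_floor_add_one _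
          rw [← lt_div_iff₀ hL0] at h1
          linarith
        · intro ρ _ _
          positivity
      have hja : ((j : ℝ) + 1) / L ≤ a₀ := by
        rw [add_div]
        have h1 : (j : ℝ) / L ≤ 2 * η := by
          rw [div_le_iff₀ hL0]; exact hj'
        linarith
      have s3 := hcount (((j : ℝ) + 1) / L) (by positivity) hja
      rw [hXexp, ← hLdef] at s3
      have e1 : 20 * (1 / 1000) * (((j : ℝ) + 1) / L) * L = ((j : ℝ) + 1) / 50 := by
        field_simp; norm_num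
      rw [e1] at s3
      have e2 : Real.exp (((j : ℝ) + 1) / 50) * Real.exp (-(j : ℝ) / 4) ≤ 2 := by
        rw [← Real.exp_add]
        have h1 : ((j : ℝ) + 1) / 50 + -(j : ℝ) / 4 ≤ 1 / 50 := by
          have : (0 : ℝ) ≤ j := Nat.cast_nonneg _
          linarith
        have h2 : (1 : ℝ) / 50 ≤ Real.log 2 := by
          have := Real.log_two_gt_d9
          linarith
        calc Real.exp (((j : ℝ) + 1) / 50 + -(j : ℝ) / 4) ≤ Real.exp (Real.log 2) :=
              Real.exp_le_exp.mpr (le_trans h1 h2)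
          _ = 2 := Real.exp_log (by norm_num)
      have e3 : 1 + c₂ * L ≤ 2 * L := by nlinarith
      calc ∑ ρ ∈ (ZF c (2 * η) X).filter (fun ρ => ⌊(1 - ρ.re) * L⌋₊ = j),
            (mz c ρ : ℝ) * Real.exp (-((1 - ρ.re) * L) / 4)
          ≤ (∑ ρ ∈ (ZF c (2 * η) X).filter (fun ρ => ⌊(1 - ρ.re) * L⌋₊ = j), (mz c ρ : ℝ)) *
              Real.exp (-(j : ℝ) / 4) := s1
        _ ≤ (m * (C₁ * Real.exp (((j : ℝ) + 1) / 50) * L ^ 6) * (A * (1 + c₂ * L))) *
              Real.exp (-(j : ℝ) / 4) :=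
            mul_le_mul_of_nonneg_right (le_trans s2 s3) (Real.exp_pos _).le
        _ = (Real.exp (((j : ℝ) + 1) / 50) * Real.exp (-(j : ℝ) / 4)) *
              (m * C₁ * A * L ^ 6 * (1 + c₂ * L)) := by ring
        _ ≤ 2 * (m * C₁ * A * L ^ 6 * (2 * L)) := by
            apply mul_le_mul e2 _ (by positivity) (by norm_num)
            exact mul_le_mul_of_nonneg_left e3 (by positivity)
        _ = 4 * m * C₁ * A * L ^ 7 := by ring
    calc ∑ j ∈ Finset.range J, ∑ ρ ∈ (ZF c (2 * η) X).filter (fun ρ => ⌊(1 - ρ.re) * L⌋₊ = j),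
          (mz c ρ : ℝ) * Real.exp (-((1 - ρ.re) * L) / 4)
        ≤ ∑ j ∈ Finset.range J, 4 * m * C₁ * A * L ^ 7 := Finset.sum_le_sum hterm
      _ = J * (4 * m * C₁ * A * L ^ 7) := by simp
      _ ≤ (2 * L) * (4 * m * C₁ * A * L ^ 7) := by
          apply mul_le_mul_of_nonneg_right _ (by positivity)
          have h1 : ((⌊2 * η * L⌋₊ : ℕ) : ℝ) ≤ 2 * η * L := Nat.floor_le (by positivity)
          rw [hJ]; push_cast
          nlinarith
      _ = K * L ^ 8 := by rw [hK]; ring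
  -- conclusion
  have hfin : ∀ ρ ∈ (ZF c (2 * η) X).filter (fun ρ => ρ.re ≤ 1 - lm / L),
      (mz c ρ : ℝ) * X ^ ((ρ.re - 1) / 2) ≤
      (mz c ρ : ℝ) * Real.exp (-((1 - ρ.re) * L) / 4) *
        (Real.exp (-(c₄ / 8 * L ^ (7 / 100 : ℝ))) * Real.exp (-lm / 8)) := by
    intro ρ hρ
    obtain ⟨g1, g2⟩ := Finset.mem_filter.mp hρ
    obtain ⟨z1, z2, z3, z4, z5, z6⟩ := hzero ρ g1
    rw [hXexp, mul_assoc, ← Real.exp_add, ← Real.exp_add]
    apply mul_le_mul_of_nonneg_left _ (by positivity)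
    apply Real.exp_le_exp.mpr
    have h1 : lm ≤ (1 - ρ.re) * L := by
      rw [← div_le_iff₀ hL0]; linarith
    nlinarith
  calc ∑ ρ ∈ (ZF c (2 * η) X).filter (fun ρ => ρ.re ≤ 1 - lm / L),
        (mz c ρ : ℝ) * X ^ ((ρ.re - 1) / 2)
      ≤ ∑ ρ ∈ (ZF c (2 * η) X).filter (fun ρ => ρ.re ≤ 1 - lm / L),
          (mz c ρ : ℝ) * Real.exp (-((1 - ρ.re) * L) / 4) *
        (Real.exp (-(c₄ / 8 * L ^ (7 / 100 : ℝ))) * Real.exp (-lm / 8)) :=
        Finset.sum_le_sum hfin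
    _ = (∑ ρ ∈ (ZF c (2 * η) X).filter (fun ρ => ρ.re ≤ 1 - lm / L),
          (mz c ρ : ℝ) * Real.exp (-((1 - ρ.re) * L) / 4)) *
        (Real.exp (-(c₄ / 8 * L ^ (7 / 100 : ℝ))) * Real.exp (-lm / 8)) := by
        rw [Finset.sum_mul]
    _ ≤ (K * L ^ 8) * (Real.exp (-(c₄ / 8 * L ^ (7 / 100 : ℝ))) * Real.exp (-lm / 8)) := by
        apply mul_le_mul_of_nonneg_right _ (by positivity)
        refine le_trans (Finset.sum_le_sum_of_subset_of_nonneg (Finset.filter_subset _ _) ?_) hsum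
        intro ρ _ _
        positivity
    _ = (K * L ^ 8 * Real.exp (-(c₄ / 8 * L ^ (7 / 100 : ℝ)))) * Real.exp (-lm / 8) := by ring
    _ ≤ Real.exp (-L ^ (1 / 20 : ℝ)) * Real.exp (-lm / 8) :=
        mul_le_mul_of_nonneg_right hP2 (Real.exp_pos _).le

end Pool.Agent.Helper36.MV
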