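import Pool.Agent.Helper23.MV.StC

/-!
# Project MV: module TRB (physical form of the term `q = R = [r₁, r₂]`)
-/

set_option autoImplicit false

namespace Pool.Agent.Helper36.MV

open Finset ArithmeticFunction
open Pool.Agent.Helper23.MV
open Pool.Agent.Helper48.BK (ex)

private theorem mulShift_TRB {R : ℕ} [NeZero R] (θ₁ θ₂ : DirichletCharacter ℂ R)
    (hR : ∀ d : ℕ, θ₁.conductor ∣ d → θ₂.conductor ∣ d → R ∣ d) (a : ZMod R) :
    gaussSum θ₁ ((ZMod.stdAddChar (N := R)).mulShift a) *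
      gaussSum θ₂ ((ZMod.stdAddChar (N := R)).mulShift a) =
    θ₁⁻¹ a * θ₂⁻¹ a *
      (gaussSum θ₁ (ZMod.stdAddChar (N := R)) * gaussSum θ₂ (ZMod.stdAddChar (N := R))) := by
  by_cases ha : IsUnit a
  · obtain ⟨u, rfl⟩ := ha
    rw [gaussSum_mulShift_eq, gaussSum_mulShift_eq]
    ring
  · rw [MulChar.map_nonunit θ₁⁻¹ ha, zero_mul, zero_mul]
    by_contra hne
    have hne1 := left_ne_zero_of_mul hne
    have hne2 := right_ne_zero_of_mul hne
    set g := Nat.gcd a.val R with hg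
    have hgR : g ∣ R := Nat.gcd_dvd_right _ _
    have hga : g ∣ a.val := Nat.gcd_dvd_left _ _
    have hR0 : R ≠ 0 := NeZero.ne R
    obtain ⟨d, hd⟩ := hgR
    have hdR : d ∣ R := ⟨g, by rw [hd, mul_comm]⟩
    obtain ⟨b, hb⟩ := hga
    have had : a * (d : ZMod R) = 0 := by
      have h1 : a = ((a.val : ℕ) : ZMod R) := (ZMod.natCast_zmod_val a).symm
      rw [h1, ← Nat.cast_mul, ZMod.natCast_eq_zero_iff, hb, hd]
      exact ⟨b, by ring⟩
    have he : ((ZMod.stdAddChar (N := R)).mulShift a).mulShift (d : ZMod R) = 1 := by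
      ext x
      rw [AddChar.mulShift_apply, AddChar.mulShift_apply, ← mul_assoc, had, zero_mul]
      simp
    have f1 := factorsThrough_of_gaussSum_ne_zero _ hdR he hne1
    have f2 := factorsThrough_of_gaussSum_ne_zero _ hdR he hne2
    have c1 := DirichletCharacter.conductor_dvd_of_mem_conductorSet θ₁ f1
    have c2 := DirichletCharacter.conductor_dvd_of_mem_conductorSet θ₂ f2
    have h3 : R ∣ d := hR d c1 c2
    have h4 : d = R := Nat.dvd_antisymm hdR h3
    have h5 : g = 1 := by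
      rw [h4] at hd
      have : R * 1 = R * g := by rw [mul_one, mul_comm]; exact hd
      exact (Nat.eq_of_mul_eq_mul_left (Nat.pos_of_ne_zero hR0) this).symm
    apply ha
    have h6 : a = ((a.val : ℕ) : ZMod R) := (ZMod.natCast_zmod_val a).symm
    rw [h6, ZMod.isUnit_iff_coprime]
    exact h5

private theorem key_TRB {R : ℕ} [NeZero R] (θ₁ θ₂ : DirichletCharacter ℂ R) (N : ZMod R)
    (hR : ∀ d : ℕ, θ₁.conductor ∣ d → θ₂.conductor ∣ d → R ∣ d) :
    gaussSum θ₁ (ZMod.stdAddChar (N := R)) * gaussSum θ₂ (ZMod.stdAddChar (N := R)) *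
      ∑ a : ZMod R, θ₁⁻¹ a * θ₂⁻¹ a * ZMod.stdAddChar (-(a * N)) =
    (R : ℂ) * ∑ x : ZMod R, θ₁ x * θ₂ (N - x) := by
  classical
  have h1 : gaussSum θ₁ (ZMod.stdAddChar (N := R)) * gaussSum θ₂ (ZMod.stdAddChar (N := R)) *
      ∑ a : ZMod R, θ₁⁻¹ a * θ₂⁻¹ a * ZMod.stdAddChar (-(a * N)) =
      ∑ a : ZMod R, ∑ x : ZMod R, ∑ y : ZMod R,
        θ₁ x * θ₂ y * ZMod.stdAddChar (a * (x + y - N)) := by
    rw [Finset.mul_sum]
    apply Finset.sum_congr rfl
    intro a _
    have h2 := mulShift_TRB θ₁ θ₂ hR a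
    calc gaussSum θ₁ (ZMod.stdAddChar (N := R)) * gaussSum θ₂ (ZMod.stdAddChar (N := R)) *
          (θ₁⁻¹ a * θ₂⁻¹ a * ZMod.stdAddChar (-(a * N)))
        = (θ₁⁻¹ a * θ₂⁻¹ a * (gaussSum θ₁ (ZMod.stdAddChar (N := R)) *
            gaussSum θ₂ (ZMod.stdAddChar (N := R)))) * ZMod.stdAddChar (-(a * N)) := by ring
      _ = (gaussSum θ₁ ((ZMod.stdAddChar (N := R)).mulShift a) *
            gaussSum θ₂ ((ZMod.stdAddChar (N := R)).mulShift a)) *
            ZMod.stdAddChar (-(a * N)) := by rw [h2]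
      _ = _ := by
          unfold gaussSum
          rw [Finset.sum_mul_sum, Finset.sum_mul]
          apply Finset.sum_congr rfl
          intro x _
          rw [Finset.sum_mul]
          apply Finset.sum_congr rfl
          intro y _
          rw [AddChar.mulShift_apply, AddChar.mulShift_apply]
          have e1 : a * (x + y - N) = a * x + a * y + -(a * N) := by ring
          rw [e1, AddChar.map_add_eq_mul, AddChar.map_add_eq_mul]
          ring
  rw [h1, Finset.sum_comm]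
  rw [Finset.mul_sum]
  apply Finset.sum_congr rfl
  intro x _
  rw [Finset.sum_comm]
  have h3 : ∀ y : ZMod R, ∑ a : ZMod R, θ₁ x * θ₂ y * ZMod.stdAddChar (a * (x + y - N)) =
      if y = N - x then (R : ℂ) * (θ₁ x * θ₂ y) else 0 := by
    intro y
    rw [← Finset.mul_sum, AddChar.sum_mulShift _ (ZMod.isPrimitive_stdAddChar R)]
    by_cases hy : y = N - x
    · rw [if_pos hy, if_pos (by rw [hy]; ring), ZMod.card]
      ring
    · rw [if_neg hy, if_neg (fun h => hy (by linear_combination h)),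
        Nat.cast_zero, mul_zero]
  rw [Finset.sum_congr rfl (fun y _ => h3 y), Finset.sum_ite_eq' Finset.univ (N - x)]
  simp

private theorem sumRange_TRB {R : ℕ} [NeZero R] (G : ZMod R → ℂ) :
    ∑ b ∈ Finset.range R, G (b : ZMod R) = ∑ x : ZMod R, G x := by
  apply Finset.sum_nbij (fun b : ℕ => (b : ZMod R))
  · intro b _
    exact Finset.mem_univ _
  · intro b hb b' hb' h
    have h1 : ((b : ℕ) : ZMod R).val = ((b' : ℕ) : ZMod R).val := congrArg ZMod.val h
    rw [ZMod.val_natCast, ZMod.val_natCast,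
      Nat.mod_eq_of_lt (Finset.mem_range.mp hb), Nat.mod_eq_of_lt (Finset.mem_range.mp hb')] at h1
    exact h1
  · intro x _
    exact ⟨x.val, by simpa using ZMod.val_lt x, ZMod.natCast_zmod_val x⟩
  · intro b _
    rfl

private theorem ex_TRB {R : ℕ} [NeZero R] (b : ℕ) :
    (ZMod.stdAddChar (N := R) (b : ZMod R) : ℂ) = ex ((b : ℝ) / R) := by
  have h := ZMod.stdAddChar_coe (N := R) (b : ℤ)
  rw [Int.cast_natCast] at h
  rw [h]
  unfold ex
  congr 1
  push_cast
  ring

private theorem exneg_TRB {R : ℕ} [NeZero R] (b : ℕ) :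
    (ZMod.stdAddChar (N := R) (-(b : ZMod R)) : ℂ) = ex (-((b : ℝ) / R)) := by
  have h := ZMod.stdAddChar_coe (N := R) (-(b : ℤ))
  rw [Int.cast_neg, Int.cast_natCast] at h
  rw [h]
  unfold ex
  congr 1
  push_cast
  ring

/-- the character of modulus `R` induced by a primitive character -/
private theorem ev_TRB (c : PCh) {R : ℕ} [NeZero R] (h : c.r ∣ R) (n : ℕ) :
    (DirichletCharacter.changeLevel h c.χ) (n : ZMod R) = if Nat.Coprime n R then c.ev n else 0 := by
  by_cases hn : Nat.Coprime n R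
  · rw [if_pos hn]
    have h1 : IsCoprime (n : ℤ) (R : ℤ) := Nat.isCoprime_iff_coprime.mpr hn
    have h2 := DirichletCharacter.changeLevel_eq_cast_of_dvd' c.χ h h1
    rw [Int.cast_natCast, Int.cast_natCast] at h2
    exact h2
  · rw [if_neg hn]
    apply MulChar.map_nonunit
    rw [ZMod.isUnit_iff_coprime]
    exact hn

/-- TRB: physical form of the term `q = R = [r₁, r₂]` -/
theorem hTrb : StTrb := by
  classical
  intro c₁ c₂ N
  obtain ⟨R, hR⟩ : ∃ R, R = Nat.lcm c₁.r c₂.r := ⟨_, rfl⟩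
  rw [← hR]
  have hd1 : c₁.r ∣ R := by rw [hR]; exact Nat.dvd_lcm_left _ _
  have hd2 : c₂.r ∣ R := by rw [hR]; exact Nat.dvd_lcm_right _ _
  have hR0 : R ≠ 0 := by rw [hR]; exact Nat.lcm_ne_zero c₁.hr c₂.hr
  have : NeZero R := ⟨hR0⟩
  have hRpos : 1 ≤ R := Nat.one_le_iff_ne_zero.mpr hR0
  set χ₁ := DirichletCharacter.changeLevel hd1 c₁.χ with hχ₁
  set χ₂ := DirichletCharacter.changeLevel hd2 c₂.χ with hχ₂
  have hev1 : ∀ n : ℕ, χ₁ (n : ZMod R) = if Nat.Coprime n R then c₁.ev n else 0 := ev_TRB c₁ hd1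
  have hev2 : ∀ n : ℕ, χ₂ (n : ZMod R) = if Nat.Coprime n R then c₂.ev n else 0 := ev_TRB c₂ hd2
  have hinv : ∀ (χ : DirichletCharacter ℂ R) (x : ZMod R), χ⁻¹ x = (starRingEnd ℂ) (χ x) := by
    intro χ x
    have h := MulChar.star_apply' χ x
    rw [← h]
    rfl
  have hta : ∀ (c : PCh) (χ : DirichletCharacter ℂ R),
      (∀ n : ℕ, χ (n : ZMod R) = if Nat.Coprime n R then c.ev n else 0) →
      ta c R = gaussSum χ⁻¹ (ZMod.stdAddChar (N := R)) := by
    intro c χ hχ
    unfold ta gaussSum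
    rw [← sumRange_TRB, Finset.sum_filter]
    apply Finset.sum_congr rfl
    intro b _
    rw [hinv, hχ, ex_TRB]
    by_cases hb : Nat.Coprime b R
    · rw [if_pos hb, if_pos hb]
    · rw [if_neg hb, if_neg hb]; simp
  have hcq : cq c₁ c₂ R N = ∑ a : ZMod R, (χ₁⁻¹)⁻¹ a * (χ₂⁻¹)⁻¹ a *
      ZMod.stdAddChar (-(a * (N : ZMod R))) := by
    unfold cq
    rw [← sumRange_TRB, Finset.sum_filter]
    apply Finset.sum_congr rfl
    intro b _
    have e2 : (ZMod.stdAddChar (N := R) (-((b : ZMod R) * (N : ZMod R))) : ℂ) =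
        ex (-((b : ℝ) * N / R)) := by
      rw [← Nat.cast_mul, exneg_TRB]
      push_cast
      rfl
    rw [inv_inv, inv_inv, hev1, hev2, e2]
    by_cases hb : Nat.Coprime b R
    · rw [if_pos hb, if_pos hb, if_pos hb]
    · rw [if_neg hb, if_neg hb]; simp
  have htw : (starRingEnd ℂ) (tw c₁ c₂ R N) =
      ∑ x : ZMod R, χ₁⁻¹ x * χ₂⁻¹ ((N : ZMod R) - x) := by
    unfold tw
    rw [← sumRange_TRB, Finset.sum_filter, map_sum]
    apply Finset.sum_congr rfl
    intro b _
    have e1 : (N : ZMod R) - (b : ZMod R) = ((N + (R - 1) * b : ℕ) : ZMod R) := by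
      rw [Nat.cast_add, Nat.cast_mul, Nat.cast_sub hRpos, ZMod.natCast_self]
      push_cast
      ring
    rw [e1, hinv, hinv, hev1, hev2]
    by_cases hb : Nat.Coprime b R
    · by_cases hb' : Nat.Coprime (N + (R - 1) * b) R
      · rw [if_pos ⟨hb, hb'⟩, if_pos hb, if_pos hb', map_mul]
      · rw [if_neg (fun h => hb' h.2), if_neg hb']; simp
    · rw [if_neg (fun h => hb h.1), if_neg hb]; simp
  rw [hta c₁ χ₁ hev1, hta c₂ χ₂ hev2, hcq, htw]
  apply key_TRB
  intro d h1 h2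
  rw [DirichletCharacter.conductor_inv, hχ₁, DirichletCharacter.conductor_changeLevel] at h1
  rw [DirichletCharacter.conductor_inv, hχ₂, DirichletCharacter.conductor_changeLevel] at h2
  have p1 : c₁.χ.conductor = c₁.r := c₁.prim
  have p2 : c₂.χ.conductor = c₂.r := c₂.prim
  rw [p1] at h1
  rw [p2] at h2
  rw [hR]
  exact Nat.lcm_dvd h1 h2

end Pool.Agent.Helper36.MV
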